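import Pool.Agent.H5.Deco4

set_option autoImplicit false

open Filter Topology

namespace Pool.Agent.Results.MP_78fc4b_an.NotUC

open Pool.Agent.H5 Pool.Agent.H5.Deco

universe u

/-- absolutely strongly exposing operators -/
def ASE {𝕜 : Type} [RCLike 𝕜] {X : Type} {Y : Type u} [NormedAddCommGroup X] [NormedSpace 𝕜 X]
    [NormedAddCommGroup Y] [NormedSpace 𝕜 Y] (T : X →L[𝕜] Y) : Prop :=
  ∃ x₀ : X, ‖x₀‖ = 1 ∧ ∀ x : ℕ → X, (∀ n, ‖x n‖ ≤ 1) →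
    Tendsto (fun n => ‖T (x n)‖) atTop (𝓝 ‖T‖) → ∃ (σ : ℕ → ℕ) (c : 𝕜), StrictMono σ ∧ ‖c‖ = 1 ∧
      Tendsto (fun n => x (σ n)) atTop (𝓝 (c • x₀))

/-- the pair `(X, Y)` has the BPBp-ASE -/
def BPBpASE (𝕜 : Type) [RCLike 𝕜] (X : Type) (Y : Type u) [NormedAddCommGroup X]
    [NormedSpace 𝕜 X] [NormedAddCommGroup Y] [NormedSpace 𝕜 Y] : Prop :=
  ∀ ε : ℝ, 0 < ε → ∃ η : ℝ, 0 < η ∧ η < ε ∧ ∀ (T : X →L[𝕜] Y) (x : X), ‖T‖ = 1 → ‖x‖ = 1 →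
    1 - η < ‖T x‖ → ∃ (S : X →L[𝕜] Y) (x₀ : X), ASE S ∧ ‖x₀‖ = 1 ∧ ‖S‖ = 1 ∧ ‖S x₀‖ = 1 ∧
      ‖S - T‖ < ε ∧ ‖x - x₀‖ < ε

/-- uniform convexity -/
def UC (X : Type) [NormedAddCommGroup X] : Prop :=
  ∀ ε : ℝ, 0 < ε → ∃ δ : ℝ, 0 < δ ∧ δ < 1 ∧ ∀ x₁ x₂ : X, ‖x₁‖ = 1 → ‖x₂‖ = 1 →
    1 - δ < ‖x₁ + x₂‖ / 2 → ‖x₁ - x₂‖ < ε

/-- A universal BPBp-ASE domain that is not uniformly convex, over either scalar field. -/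
theorem result (𝕜 : Type) [RCLike 𝕜] : ∃ (X : Type) (_ : NormedAddCommGroup X)
    (_ : NormedSpace 𝕜 X) (_ : CompleteSpace X), ¬ UC X ∧
      ∀ (Z : Type u) [NormedAddCommGroup Z] [NormedSpace 𝕜 Z] [CompleteSpace Z],
        BPBpASE 𝕜 X Z := by
  obtain ⟨X, i1, i2, i3, e, h1, h2, h3⟩ := model.{u} 𝕜
  refine ⟨X, i1, i2, i3, fun h => ?_, fun Z _ _ _ ε hε => ?_⟩
  · obtain ⟨δ, d0, -, h⟩ := h 1 one_pos
    have h4 : ∀ (p : ℕ × ℕ) (a b : 𝕜), innerSL 𝕜 (E 𝕜 p) (P 𝕜 0 (a • E 𝕜 (0, 0) + b • E 𝕜 (0, 1))) =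
        a * inner 𝕜 (E 𝕜 p) (E 𝕜 (0, 0)) + b * inner 𝕜 (E 𝕜 p) (E 𝕜 (0, 1)) := fun p a b => by
      rw [map_add, map_smul, map_smul, P_self 𝕜 (j := 0) (E_mem 𝕜 (p := (0, 0)) le_rfl),
        P_self 𝕜 (j := 0) (E_mem 𝕜 (p := (0, 1)) le_rfl), map_add, map_smul, map_smul]
      rfl
    have h5 : ∀ a b : 𝕜, ‖b‖ ≤ ‖e (a • E 𝕜 (0, 0) + b • E 𝕜 (0, 1))‖ := fun a b => by
      have h6 := h3 _ _ 1 (fun c h _ hh => coord1 𝕜 c h hh) (a • E 𝕜 (0, 0) + b • E 𝕜 (0, 1))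
      rwa [h4, (E_on 𝕜).inner_eq_zero (by simp), mul_zero, zero_add, one_mul,
        inner_self_eq_one_of_norm_eq_one ((E_on 𝕜).norm_eq_one _), mul_one] at h6
    have h6 : ∀ a : 𝕜, ‖a‖ = 1 → ‖e (a • E 𝕜 (0, 0) + (1 : 𝕜) • E 𝕜 (0, 1))‖ = 1 := fun a ha =>
      le_antisymm (h2 a _ ha.le (by rw [one_smul, (E_on 𝕜).norm_eq_one])) (by simpa using h5 a 1)
    have h7 := h5 (1 + -1) (1 + 1)
    have h8 := h3 _ _ 2 (coord0 𝕜) ((1 - -1 : 𝕜) • E 𝕜 (0, 0) + (1 - 1 : 𝕜) • E 𝕜 (0, 1))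
    have h9 : ‖(1 + 1 : 𝕜)‖ = 2 := by rw [one_add_one_eq_two, RCLike.norm_two]
    rw [h4, sub_self, zero_mul, add_zero, inner_self_eq_one_of_norm_eq_one ((E_on 𝕜).norm_eq_one _),
      mul_one, sub_neg_eq_add, h9, zero_smul] at h8
    rw [h9] at h7
    have h10 := h _ _ (h6 1 norm_one) (h6 (-1) (by rw [norm_neg, norm_one])) (by
      rw [← map_add, add_add_add_comm, ← add_smul, ← add_smul]
      exact lt_of_lt_of_le (by linarith) (div_le_div_of_nonneg_right h7 zero_le_two))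
    rw [← map_sub, add_sub_add_right_eq_sub, ← sub_smul, sub_neg_eq_add] at h10
    rw [add_zero] at h8
    linarith
  · obtain ⟨η, hη, h⟩ := Iter.iter (h1 Z) ε hε
    refine ⟨min η (ε / 2), lt_min hη (half_pos hε), (min_le_right _ _).trans_lt (half_lt_self hε),
      fun T x hT hx hTx => ?_⟩
    obtain ⟨S, w, k1, k2, k3, k4, k5, k6⟩ := h T x hT hx.le (by linarith [min_le_left η (ε / 2)])
    exact ⟨S, w, ⟨w, k2, k6⟩, k2, k1, k3, k4, k5⟩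

end Pool.Agent.Results.MP_78fc4b_an.NotUC
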